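import Mathlib
import Pool.Agent.W192.CY.Stn

set_option autoImplicit false

namespace Pool.Agent.W215.CYKloo

open Pool.Agent.W192.CY

lemma gs {q : ℕ} [NeZero q] (χ : DirichletCharacter ℂ q) :
    gaussSum χ (ZMod.stdAddChar (N := q)) =
      ∑ u : (ZMod q)ˣ, χ (u : ZMod q) * (ZMod.stdAddChar (N := q) (u : ZMod q) : ℂ) := by
  symm
  unfold gaussSum
  refine Fintype.sum_of_injective (fun u : (ZMod q)ˣ => (u : ZMod q)) Units.val_injective _ _ ?_ ?_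
  · intro a ha
    have : ¬ IsUnit a := by
      rintro ⟨u, rfl⟩
      exact ha ⟨u, rfl⟩
    rw [MulChar.map_nonunit χ this, zero_mul]
  · intro u; rfl

lemma one_ {q : ℕ} [NeZero q] (χ : DirichletCharacter ℂ q) (y : (ZMod q)ˣ) :
    χ (y : ZMod q) * gaussSum χ (ZMod.stdAddChar (N := q)) ^ 2 =
      ∑ h : (ZMod q)ˣ, χ (h : ZMod q) * ∑ u : (ZMod q)ˣ, (ZMod.stdAddChar (N := q)
        (1 * (u : ZMod q) + ((h * y⁻¹ : (ZMod q)ˣ) : ZMod q) *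
          ((u⁻¹ : (ZMod q)ˣ) : ZMod q)) : ℂ) := by
  rw [gs, sq, Finset.sum_mul_sum, Finset.mul_sum]
  simp only [Finset.mul_sum]
  conv_rhs => rw [Finset.sum_comm]
  refine Finset.sum_congr rfl fun u _ => ?_
  refine Fintype.sum_equiv (Equiv.mulLeft (y * u)) _ _ fun v => ?_
  simp only [Equiv.coe_mulLeft]
  have h1 : ((y * u * v * y⁻¹ : (ZMod q)ˣ) : ZMod q) * ((u⁻¹ : (ZMod q)ˣ) : ZMod q) = (v : ZMod q) := by
    rw [← Units.val_mul]
    congr 1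
    rw [show y * u * v * y⁻¹ * u⁻¹ = (y * y⁻¹) * (u * u⁻¹) * v by
      simp only [mul_assoc, mul_comm, mul_left_comm]]
    simp
  rw [h1, one_mul, AddChar.map_add_eq_mul, Units.val_mul, Units.val_mul, map_mul, map_mul]
  ring

theorem t_kloo (h : G_ORTH) (hw : G_WEIL) : G_KLOO := by
  intro η hη
  obtain ⟨C, hC, hb⟩ := hw η hη
  refine ⟨C, hC, ?_⟩
  intro q _ χ₀ e he y
  obtain ⟨h1, h2⟩ := h q χ₀ e he
  have hq0 : (0 : ℝ) < q := by exact_mod_cast Nat.pos_of_ne_zero (NeZero.ne q)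
  have e1 : ∑ χ ∈ Cg q χ₀ e, χ (y : ZMod q) * gaussSum χ (ZMod.stdAddChar (N := q)) ^ 2 =
      ∑ h : (ZMod q)ˣ, (∑ χ ∈ Cg q χ₀ e, χ (h : ZMod q)) *
        ∑ u : (ZMod q)ˣ, (ZMod.stdAddChar (N := q)
        (1 * (u : ZMod q) + ((h * y⁻¹ : (ZMod q)ˣ) : ZMod q) *
          ((u⁻¹ : (ZMod q)ˣ) : ZMod q)) : ℂ) := by
    simp_rw [one_, Finset.sum_mul]
    rw [Finset.sum_comm]
  rw [e1]
  classical
  have e2 : ∀ x : (ZMod q)ˣ, ‖∑ χ ∈ Cg q χ₀ e, χ (x : ZMod q)‖ =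
      if x ∈ Hg q χ₀ e then (e : ℝ) else 0 := by
    intro x
    split_ifs with hx
    · rw [(h2 x).1 hx, Complex.norm_natCast]
    · rw [(h2 x).2 hx, norm_zero]
  have e3 : ∑ x : (ZMod q)ˣ, ‖∑ χ ∈ Cg q χ₀ e, χ (x : ZMod q)‖ = (Nat.totient q : ℝ) := by
    simp_rw [e2]
    rw [← Finset.sum_filter, Finset.sum_const, nsmul_eq_mul]
    rw [← h1]
    push_cast
    rw [mul_comm]
    congr 2
    rw [Nat.card_eq_fintype_card, Fintype.card_subtype]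
  have e4 : (Nat.totient q : ℝ) ≤ q := by exact_mod_cast Nat.totient_le q
  have e5 : (0 : ℝ) ≤ (q : ℝ) ^ (1 / 2 + η) := Real.rpow_nonneg hq0.le _
  calc _ ≤ ∑ x : (ZMod q)ˣ, ‖∑ χ ∈ Cg q χ₀ e, χ (x : ZMod q)‖ * (C * (q : ℝ) ^ (1 / 2 + η)) := by
        refine (norm_sum_le _ _).trans (Finset.sum_le_sum fun x _ => ?_)
        rw [norm_mul]
        exact mul_le_mul_of_nonneg_left (hb q 1 _ (Units.isUnit _)) (norm_nonneg _)
    _ = (Nat.totient q : ℝ) * (C * (q : ℝ) ^ (1 / 2 + η)) := by rw [← Finset.sum_mul, e3]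
    _ ≤ q * (C * (q : ℝ) ^ (1 / 2 + η)) := mul_le_mul_of_nonneg_right e4 (by positivity)
    _ = C * (q : ℝ) ^ (3 / 2 + η) := by
        have e6 : (q : ℝ) ^ (3 / 2 + η) = q * (q : ℝ) ^ (1 / 2 + η) := by
          rw [show (3 / 2 + η : ℝ) = (1 / 2 + η) + 1 by ring, Real.rpow_add_one hq0.ne']
          ring
        rw [e6]
        ring

end Pool.Agent.W215.CYKloo
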